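import Pool.Agent.H160R2.LE.Defs
import Pool.Agent.H906R2.Arm.Link

/-!
# X2: blocked, the connections of the infinite strip are those of the finite strip
-/

set_option autoImplicit false

namespace Pool.Agent.H160R2.LE
open Pool.Agent.H863R2.Cyl
open Pool.Agent.H988R2.Perc (Word PD)
open Pool.Agent.H160R2.ML
open H974 H906.Cyl
open MeasureTheory

namespace TX2

/-- the dictionary -/
def f (M : ℕ) (x : (ℤ × ℤ) × Bool) : (ℤ × ℕ) × Bool :=
  if x.2 = true then ((x.1.1, ((M : ℤ) - x.1.2).toNat), true)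
  else ((x.1.1, ((M : ℤ) + x.1.2).toNat), false)

/-- the region between the blocking rows -/
def Gd (tU tD : ℕ) (x : (ℤ × ℤ) × Bool) : Prop :=
  if x.2 = true then 0 ≤ x.1.2 ∧ x.1.2 ≤ tU + 1 ∧ ((x.1.1 + x.1.2) % 2 = 1 → x.1.2 ≤ tU)
  else x.1.2 ≤ 0 ∧ -1 - (tD : ℤ) ≤ x.1.2 ∧ ((x.1.1 + x.1.2) % 2 = 1 → -(tD : ℤ) ≤ x.1.2)

theorem f_up (M : ℕ) (j t : ℤ) : f M ((j, t), true) = ((j, ((M : ℤ) - t).toNat), true) := rfl
theorem f_dn (M : ℕ) (j t : ℤ) : f M ((j, t), false) = ((j, ((M : ℤ) + t).toNat), false) := rfl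
theorem gd_up (tU tD : ℕ) (j t : ℤ) :
    Gd tU tD ((j, t), true) ↔ 0 ≤ t ∧ t ≤ tU + 1 ∧ ((j + t) % 2 = 1 → t ≤ tU) := by
  unfold Gd; simp
theorem gd_dn (tU tD : ℕ) (j t : ℤ) :
    Gd tU tD ((j, t), false) ↔ t ≤ 0 ∧ -1 - (tD : ℤ) ≤ t ∧ ((j + t) % 2 = 1 → -(tD : ℤ) ≤ t) := by
  unfold Gd; simp

theorem ix_mod {n : ℕ} (hn : 1 ≤ n) (j : ℤ) :
    ((ix (2 * n - 1) (j % ((2 * n - 1 : ℕ) + 1 : ℤ)).toNat).val : ℤ) = j % (2 * n : ℕ) := by
  rw [ix_val (by omega), Int.emod_def]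
  push_cast
  ring

theorem cl_cd {n : ℕ} (hn : 1 ≤ n) (M : ℕ) (ω : ℤ × ℤ → Bool) (r : ℕ) (j t : ℤ)
    (h : (r : ℤ) - M = t) : cl (cd n M ω r) j = ω (j % (2 * n : ℕ), t) := by
  unfold cl cd
  rw [ix_mod hn, h]

theorem cl_cu {n : ℕ} (hn : 1 ≤ n) (M : ℕ) (ω : ℤ × ℤ → Bool) (r : ℕ) (j t : ℤ)
    (h : (M : ℤ) - 1 - r = t) : cl (cu n M ω r) j = !(ω (j % (2 * n : ℕ), t)) := by
  unfold cl cu
  rw [ix_mod hn, h]

theorem mod_mod {n : ℕ} (j t : ℤ) : (j % (2 * n : ℕ) + t) % 2 = (j + t) % 2 := by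
  have h : (j % (2 * n : ℕ)) % 2 = j % 2 := Int.emod_emod_of_dvd j ⟨(n : ℤ), by push_cast; ring⟩
  omega

/-- the blocking rows, periodically -/
theorem blU {n : ℕ} (hn : 1 ≤ n) {ω : ℤ × ℤ → Bool} {tU : ℕ} (h : BlU n ω tU) (j : ℤ) :
    (ω (j % (2 * n : ℕ), (tU : ℤ)) = decide ((j + tU) % 2 = 1)) ∧
    (ω (j % (2 * n : ℕ), (tU : ℤ) + 1) = decide ((j + (tU + 1)) % 2 = 0)) := by
  have h1 := Int.emod_nonneg j (show ((2 * n : ℕ) : ℤ) ≠ 0 by omega)
  have h2 := Int.emod_lt_of_pos j (show (0 : ℤ) < (2 * n : ℕ) by omega)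
  have h2' : j % (2 * n : ℕ) < 2 * n := by push_cast at h2 ⊢; exact h2
  refine ⟨?_, ?_⟩
  · rw [h.1 _ h1 h2', mod_mod]
  · rw [h.2 _ h1 h2', add_assoc, mod_mod]

theorem blD {n : ℕ} (hn : 1 ≤ n) {ω : ℤ × ℤ → Bool} {tD : ℕ} (h : BlD n ω tD) (j : ℤ) :
    (ω (j % (2 * n : ℕ), -1 - (tD : ℤ)) = decide ((j + (-1 - tD)) % 2 = 1)) ∧
    (ω (j % (2 * n : ℕ), -2 - (tD : ℤ)) = decide ((j + (-2 - tD)) % 2 = 0)) := by
  have h1 := Int.emod_nonneg j (show ((2 * n : ℕ) : ℤ) ≠ 0 by omega)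
  have h2 := Int.emod_lt_of_pos j (show (0 : ℤ) < (2 * n : ℕ) by omega)
  have h2' : j % (2 * n : ℕ) < 2 * n := by push_cast at h2 ⊢; exact h2
  refine ⟨?_, ?_⟩
  · rw [h.1 _ h1 h2', mod_mod]
  · rw [h.2 _ h1 h2', mod_mod]

/-- the steps respect the region -/
theorem gd_step {n k : ℕ} (hn : 1 ≤ n) {ω : ℤ × ℤ → Bool} {tU tD : ℕ} (hU : BlU n ω tU)
    (hD : BlD n ω tD) {x y : (ℤ × ℤ) × Bool} (h : Link n k ω x y) :
    Gd tU tD x ↔ Gd tU tD y := by
  cases h with
  | rise j t hω =>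
    by_cases ht : 0 ≤ t
    · rw [decide_eq_true ht, gd_up, gd_up]
      have e : (j + 1 + (t + 1)) % 2 = (j + t) % 2 := by omega
      rw [e]
      constructor
      · rintro ⟨a1, a2, a3⟩
        have b1 : ¬ ((j + t) % 2 = 0 ∧ t = tU + 1) := by
          rintro ⟨c1, c2⟩
          subst c2
          rw [(blU hn hU j).2, decide_eq_false_iff_not] at hω
          exact hω c1
        have b2 : ¬ ((j + t) % 2 = 1 ∧ t = tU) := by
          rintro ⟨c1, c2⟩
          subst c2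
          rw [(blU hn hU j).1, decide_eq_false_iff_not] at hω
          exact hω c1
        refine ⟨by omega, by omega, fun h => by omega⟩
      · rintro ⟨a1, a2, a3⟩
        exact ⟨ht, by omega, fun h => by omega⟩
    · rw [decide_eq_false ht, gd_dn, gd_dn]
      have e : (j + 1 + (t + 1)) % 2 = (j + t) % 2 := by omega
      rw [e]
      constructor
      · rintro ⟨a1, a2, a3⟩
        exact ⟨by omega, by omega, fun h => by omega⟩
      · rintro ⟨a1, a2, a3⟩
        have b1 : ¬ ((j + t) % 2 = 0 ∧ t = -2 - tD) := by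
          rintro ⟨c1, c2⟩
          subst c2
          rw [(blD hn hD j).2, decide_eq_false_iff_not] at hω
          exact hω c1
        have b2 : ¬ ((j + t) % 2 = 1 ∧ t = -1 - tD) := by
          rintro ⟨c1, c2⟩
          subst c2
          rw [(blD hn hD j).1, decide_eq_false_iff_not] at hω
          exact hω c1
        exact ⟨by omega, by omega, fun h => by omega⟩
  | fall j t hω =>
    by_cases ht : 0 ≤ t
    · rw [decide_eq_true ht, gd_up, gd_up]
      constructor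
      · rintro ⟨a1, a2, a3⟩
        have b1 : ¬ ((j + t) % 2 = 1 ∧ t = tU + 1) := by
          rintro ⟨c1, c2⟩
          subst c2
          rw [(blU hn hU j).2, decide_eq_true_iff] at hω
          omega
        have b2 : ¬ ((j + t) % 2 = 0 ∧ t = tU) := by
          rintro ⟨c1, c2⟩
          subst c2
          rw [(blU hn hU j).1, decide_eq_true_iff] at hω
          omega
        refine ⟨by omega, by omega, fun h => by omega⟩
      · rintro ⟨a1, a2, a3⟩
        exact ⟨ht, by omega, fun h => by omega⟩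
    · rw [decide_eq_false ht, gd_dn, gd_dn]
      constructor
      · rintro ⟨a1, a2, a3⟩
        exact ⟨by omega, by omega, fun h => by omega⟩
      · rintro ⟨a1, a2, a3⟩
        have b1 : ¬ ((j + t) % 2 = 1 ∧ t = -2 - tD) := by
          rintro ⟨c1, c2⟩
          subst c2
          rw [(blD hn hD j).2, decide_eq_true_iff] at hω
          omega
        have b2 : ¬ ((j + t) % 2 = 0 ∧ t = -1 - tD) := by
          rintro ⟨c1, c2⟩
          subst c2
          rw [(blD hn hD j).1, decide_eq_true_iff] at hω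
          omega
        exact ⟨by omega, by omega, fun h => by omega⟩
  | glue j _ =>
    rw [gd_up, gd_dn]
    constructor
    · rintro _
      exact ⟨by omega, by omega, fun h => by omega⟩
    · rintro _
      exact ⟨by omega, by omega, fun h => by omega⟩

/-- the steps inside the region are steps of the finite strip -/
theorem bg_step {n k M : ℕ} (hn : 1 ≤ n) (hk : 1 ≤ k) (hk2 : k ≤ 2 * n) {ω : ℤ × ℤ → Bool}
    {tU tD : ℕ} (hUM : tU + 2 ≤ M) (hDM : tD + 2 ≤ M) (τ σ : Word)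
    {x y : (ℤ × ℤ) × Bool} (h : Link n k ω x y) (hx : Gd tU tD x) (hy : Gd tU tD y) :
    Relation.EqvGen (BgB n M k ω τ σ) (f M x) (f M y) := by
  cases h with
  | rise j t hω =>
    by_cases ht : 0 ≤ t
    · rw [decide_eq_true ht] at hx hy ⊢
      rw [gd_up] at hx hy
      rw [f_up, f_up]
      apply Relation.EqvGen.symm
      apply Relation.EqvGen.rel
      have e1 : ((M : ℤ) - t).toNat = ((M : ℤ) - (t + 1)).toNat + 1 := by omega
      rw [e1]
      refine BgB.upp _ _ (Lk.link1 j _ (by omega) ?_)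
      rw [cl_cu hn M ω _ j t (by omega), hω]
      rfl
    · rw [decide_eq_false ht] at hx hy ⊢
      rw [gd_dn] at hx hy
      rw [f_dn, f_dn]
      apply Relation.EqvGen.rel
      have e1 : ((M : ℤ) + (t + 1)).toNat = ((M : ℤ) + t).toNat + 1 := by omega
      rw [e1]
      refine BgB.low _ _ (Lk.link0 j _ (by omega) ?_)
      rw [cl_cd hn M ω _ j t (by omega), hω]
  | fall j t hω =>
    by_cases ht : 0 ≤ t
    · rw [decide_eq_true ht] at hx hy ⊢
      rw [gd_up] at hx hy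
      rw [f_up, f_up]
      apply Relation.EqvGen.symm
      apply Relation.EqvGen.rel
      have e1 : ((M : ℤ) - t).toNat = ((M : ℤ) - (t + 1)).toNat + 1 := by omega
      rw [e1]
      refine BgB.upp _ _ (Lk.link0 j _ (by omega) ?_)
      rw [cl_cu hn M ω _ j t (by omega), hω]
      rfl
    · rw [decide_eq_false ht] at hx hy ⊢
      rw [gd_dn] at hx hy
      rw [f_dn, f_dn]
      apply Relation.EqvGen.rel
      have e1 : ((M : ℤ) + (t + 1)).toNat = ((M : ℤ) + t).toNat + 1 := by omega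
      rw [e1]
      refine BgB.low _ _ (Lk.link1 j _ (by omega) ?_)
      rw [cl_cd hn M ω _ j t (by omega), hω]
  | glue j hj =>
    rw [f_up, f_dn]
    apply Relation.EqvGen.rel
    have e1 : ((M : ℤ) + 0).toNat = M := by omega
    have e2 : ((M : ℤ) - 0).toNat = M := by omega
    rw [e1, e2]
    have h0 : (0 : ℤ) < (2 * n : ℕ) := by omega
    have h1 := Int.emod_nonneg j h0.ne'
    have h2 := Int.emod_lt_of_pos j h0
    have h3 := Int.emod_add_mul_ediv j ((2 * n : ℕ) : ℤ)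
    by_cases hr : (k : ℤ) ≤ j % (2 * n : ℕ)
    · have h4 := BgB.glue (n := n) (M := M) (k := k) (ω := ω) (τ := τ) (σ := σ)
        (j / (2 * n : ℕ)) (j % (2 * n : ℕ) - k).toNat (by omega)
      have e : j / ((2 * n : ℕ) : ℤ) * (2 * n : ℕ) + k + ((j % (2 * n : ℕ) - k).toNat : ℕ) = j := by
        rw [Int.toNat_of_nonneg (by omega)]
        linarith
      rw [e] at h4
      exact h4
    · have h5 : j % (2 * n : ℕ) = 0 := by
        by_contra hne
        refine hj (j / (2 * n : ℕ)) ⟨?_, ?_⟩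
        · have : 0 < j % (2 * n : ℕ) := lt_of_le_of_ne h1 (Ne.symm hne)
          linarith
        · have : j % (2 * n : ℕ) < k := not_le.1 hr
          linarith
      have h4 := BgB.glue (n := n) (M := M) (k := k) (ω := ω) (τ := τ) (σ := σ)
        (j / (2 * n : ℕ) - 1) (2 * n - k) (by omega)
      have e : (j / ((2 * n : ℕ) : ℤ) - 1) * (2 * n : ℕ) + k + ((2 * n - k : ℕ) : ℤ) = j := by
        rw [Nat.cast_sub hk2]
        rw [h5] at h3
        linarith
      rw [e] at h4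
      exact h4

theorem main {n k M : ℕ} (hn : 1 ≤ n) (hk : 1 ≤ k) (hk2 : k ≤ 2 * n) {ω : ℤ × ℤ → Bool}
    {tU tD : ℕ} (hUM : tU + 2 ≤ M) (hDM : tD + 2 ≤ M) (hU : BlU n ω tU) (hD : BlD n ω tD)
    (τ σ : Word) {x y : (ℤ × ℤ) × Bool} (h : Relation.EqvGen (Link n k ω) x y) :
    (Gd tU tD x ↔ Gd tU tD y) ∧
      (Gd tU tD x → Relation.EqvGen (BgB n M k ω τ σ) (f M x) (f M y)) := by
  induction h with
  | rel x y h =>
    have h1 := gd_step hn hU hD h
    exact ⟨h1, fun hx => bg_step hn hk hk2 hUM hDM τ σ h hx (h1.1 hx)⟩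
  | refl x => exact ⟨Iff.rfl, fun _ => Relation.EqvGen.refl _⟩
  | symm x y _ ih => exact ⟨ih.1.symm, fun hy => (ih.2 (ih.1.2 hy)).symm⟩
  | trans x y z _ _ ih1 ih2 =>
    exact ⟨ih1.1.trans ih2.1, fun hx => (ih1.2 hx).trans _ _ _ (ih2.2 (ih1.1.1 hx))⟩

end TX2

open TX2 in
theorem t_X2 : S_X2 := by
  intro n M k hn hk hk2 ω hB σ τ a b β γ h
  obtain ⟨⟨tU, hUM, hU⟩, ⟨tD, hDM, hD⟩⟩ := hB
  have h1 := (main hn hk hk2 hUM hDM hU hD τ.1 σ.1 h).2
  have hg : Gd tU tD ((a, 0), β) := by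
    cases β
    · rw [gd_dn]
      exact ⟨le_rfl, by omega, fun _ => by omega⟩
    · rw [gd_up]
      exact ⟨le_rfl, by omega, fun _ => by omega⟩
  have e : ∀ (a : ℤ) (β : Bool), f M ((a, 0), β) = ((a, M), β) := by
    intro a β
    cases β
    · rw [f_dn, add_zero, Int.toNat_natCast]
    · rw [f_up, sub_zero, Int.toNat_natCast]
  have h2 := h1 hg
  rw [e, e] at h2
  exact h2

end Pool.Agent.H160R2.LE
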