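import Pool.Agent.H160R2.LE.Defs

/-! Task X3: connections of the finite strip are connections of the infinite strip. -/

set_option autoImplicit false

namespace Pool.Agent.H160R2.LE
open Pool.Agent.H863R2.Cyl
open Pool.Agent.H988R2.Perc (Word PD)
open Pool.Agent.H160R2.ML
open H974 H906.Cyl
open MeasureTheory

namespace TX3

/-- the point of the infinite strip -/
def f (M : ℕ) (x : (ℤ × ℕ) × Bool) : (ℤ × ℤ) × Bool :=
  ((x.1.1, if x.2 = true then (M : ℤ) - x.1.2 else (x.1.2 : ℤ) - M), x.2)

/-- the points which can be reached from the slit level -/
def G (M : ℕ) (B : Bool → ℕ) (x : (ℤ × ℕ) × Bool) : Prop :=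
  (M : ℤ) - x.1.2 ≤ B x.2 + 1 ∧ ((M : ℤ) - x.1.2 = B x.2 + 1 → (x.1.1 + ((M : ℤ) - x.1.2)) % 2 = 0)

theorem ix_mod {n : ℕ} (hn : 1 ≤ n) (j : ℤ) :
    ((ix (2 * n - 1) (j % ((2 * n - 1 : ℕ) + 1 : ℤ)).toNat).val : ℤ) = j % ((2 * n : ℕ) : ℤ) := by
  rw [ix_val hn, Int.emod_def]
  push_cast
  ring

theorem cl_cd {n : ℕ} (hn : 1 ≤ n) (M : ℕ) (ω : ℤ × ℤ → Bool) (t : ℕ) (j : ℤ) :
    cl (cd n M ω t) j = ω (j % ((2 * n : ℕ) : ℤ), (t : ℤ) - M) := by
  unfold cl cd
  rw [ix_mod hn]

theorem cl_cu {n : ℕ} (hn : 1 ≤ n) (M : ℕ) (ω : ℤ × ℤ → Bool) (t : ℕ) (j : ℤ) :
    cl (cu n M ω t) j = !ω (j % ((2 * n : ℕ) : ℤ), (M : ℤ) - 1 - t) := by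
  unfold cl cu
  rw [ix_mod hn]

theorem mod_bd {n : ℕ} (hn : 1 ≤ n) (j : ℤ) :
    0 ≤ j % ((2 * n : ℕ) : ℤ) ∧ j % ((2 * n : ℕ) : ℤ) < 2 * n := by
  have h1 := Int.emod_nonneg j (show ((2 * n : ℕ) : ℤ) ≠ 0 by omega)
  have h2 := Int.emod_lt_of_pos j (show (0 : ℤ) < ((2 * n : ℕ) : ℤ) by omega)
  push_cast at h1 h2 ⊢
  exact ⟨h1, h2⟩

theorem mod_par {n : ℕ} (j : ℤ) : (j % ((2 * n : ℕ) : ℤ)) % 2 = j % 2 :=
  Int.emod_emod_of_dvd j ⟨n, by push_cast; ring⟩

end TX3

open TX3 in
theorem t_X3 : S_X3 := by
  intro n M k hn hk hkn ω hblk σ τ a b β γ h
  obtain ⟨⟨tU, hU, hU1, hU2⟩, ⟨tD, hD, hD1, hD2⟩⟩ := hblk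
  set B : Bool → ℕ := fun β => if β = true then tU else tD with hB
  have hBt : B true = tU := rfl
  have hBf : B false = tD := rfl
  -- parity of the links at the blocking rows
  have lowO : ∀ (j : ℤ), ω (j % ((2 * n : ℕ) : ℤ), -1 - (tD : ℤ)) = decide ((j + (-1 - tD)) % 2 = 1) := by
    intro j
    obtain ⟨h1, h2⟩ := mod_bd hn j
    rw [hD1 _ h1 h2]
    have := mod_par (n := n) j
    congr 1
    apply propext
    constructor <;> intro h <;> omega
  have lowE : ∀ (j : ℤ), ω (j % ((2 * n : ℕ) : ℤ), -2 - (tD : ℤ)) = decide ((j + (-2 - tD)) % 2 = 0) := by
    intro j
    obtain ⟨h1, h2⟩ := mod_bd hn j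
    rw [hD2 _ h1 h2]
    have := mod_par (n := n) j
    congr 1
    apply propext
    constructor <;> intro h <;> omega
  have uppO : ∀ (j : ℤ), ω (j % ((2 * n : ℕ) : ℤ), (tU : ℤ)) = decide ((j + tU) % 2 = 1) := by
    intro j
    obtain ⟨h1, h2⟩ := mod_bd hn j
    rw [hU1 _ h1 h2]
    have := mod_par (n := n) j
    congr 1
    apply propext
    constructor <;> intro h <;> omega
  have uppE : ∀ (j : ℤ), ω (j % ((2 * n : ℕ) : ℤ), (tU : ℤ) + 1) = decide ((j + tU + 1) % 2 = 0) := by
    intro j
    obtain ⟨h1, h2⟩ := mod_bd hn j
    rw [hU2 _ h1 h2]
    have := mod_par (n := n) j
    congr 1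
    apply propext
    constructor <;> intro h <;> omega
  have key : ∀ x y, Relation.EqvGen (BgB n M k ω τ.1 σ.1) x y →
      (G M B x ↔ G M B y) ∧ (G M B x → Relation.EqvGen (Link n k ω) (f M x) (f M y)) := by
    intro x y hxy
    induction hxy with
    | refl x => exact ⟨Iff.rfl, fun _ => Relation.EqvGen.refl _⟩
    | symm x y _ ih => exact ⟨ih.1.symm, fun hy => (ih.2 (ih.1.2 hy)).symm⟩
    | trans x y z _ _ ih1 ih2 =>
      exact ⟨ih1.1.trans ih2.1, fun hx => (ih1.2 hx).trans _ _ _ (ih2.2 (ih1.1.1 hx))⟩
    | rel x y hxy =>
      cases hxy with
      | low x y hl =>
        cases hl with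
        | bot a b _ =>
          constructor
          · unfold G
            simp only [hBf, Nat.cast_zero]
            constructor <;> rintro ⟨h1, _⟩ <;> exfalso <;> omega
          · intro h1
            unfold G at h1
            simp only [hBf, Nat.cast_zero] at h1
            exfalso
            omega
        | link0 j t ht hc =>
          rw [cl_cd hn] at hc
          constructor
          · unfold G
            simp only [hBf]
            constructor
            · rintro ⟨h1, h2⟩
              constructor
              · push_cast; omega
              · intro h3; push_cast at h3; exfalso; omega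
            · rintro ⟨h1, h2⟩
              push_cast at h1 h2
              have h3 : (M : ℤ) - t ≤ tD + 1 := by
                by_contra h4
                have h5 : (t : ℤ) - M = -2 - tD := by omega
                rw [h5, lowE] at hc
                have h6 := h2 (by omega)
                simp only [decide_eq_false_iff_not] at hc
                omega
              refine ⟨h3, fun h4 => ?_⟩
              have h5 : (t : ℤ) - M = -1 - tD := by omega
              rw [h5, lowO] at hc
              simp only [decide_eq_false_iff_not] at hc
              omega
          · intro _
            have hL := Link.rise (n := n) (k := k) (ω := ω) j ((t : ℤ) - M) hc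
            have h0 : decide ((0 : ℤ) ≤ (t : ℤ) - M) = false := by
              simp only [decide_eq_false_iff_not]; omega
            rw [h0] at hL
            have hy : f M ((j + 1, t + 1), false) = ((j + 1, (t : ℤ) - M + 1), false) := by
              simp only [f, Bool.false_eq_true, if_false]
              push_cast
              congr 2
              ring
            have hx : f M ((j, t), false) = ((j, (t : ℤ) - M), false) := rfl
            rw [hx, hy]
            exact Relation.EqvGen.rel _ _ hL
        | link1 j t ht hc =>
          rw [cl_cd hn] at hc
          constructor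
          · unfold G
            simp only [hBf]
            constructor
            · rintro ⟨h1, h2⟩
              constructor
              · push_cast; omega
              · intro h3; push_cast at h3; exfalso; omega
            · rintro ⟨h1, h2⟩
              push_cast at h1 h2
              have h3 : (M : ℤ) - t ≤ tD + 1 := by
                by_contra h4
                have h5 : (t : ℤ) - M = -2 - tD := by omega
                rw [h5, lowE] at hc
                have h6 := h2 (by omega)
                simp only [decide_eq_true_eq] at hc
                omega
              refine ⟨h3, fun h4 => ?_⟩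
              have h5 : (t : ℤ) - M = -1 - tD := by omega
              rw [h5, lowO] at hc
              simp only [decide_eq_true_eq] at hc
              omega
          · intro _
            have hL := Link.fall (n := n) (k := k) (ω := ω) j ((t : ℤ) - M) hc
            have h0 : decide ((0 : ℤ) ≤ (t : ℤ) - M) = false := by
              simp only [decide_eq_false_iff_not]; omega
            rw [h0] at hL
            have hy : f M ((j, t + 1), false) = ((j, (t : ℤ) - M + 1), false) := by
              simp only [f, Bool.false_eq_true, if_false]
              push_cast
              congr 2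
              ring
            have hx : f M ((j + 1, t), false) = ((j + 1, (t : ℤ) - M), false) := rfl
            rw [hx, hy]
            exact Relation.EqvGen.rel _ _ hL
      | upp x y hl =>
        cases hl with
        | bot a b _ =>
          constructor
          · unfold G
            simp only [hBt, Nat.cast_zero]
            constructor <;> rintro ⟨h1, _⟩ <;> exfalso <;> omega
          · intro h1
            unfold G at h1
            simp only [hBt, Nat.cast_zero] at h1
            exfalso
            omega
        | link0 j t ht hc =>
          rw [cl_cu hn, Bool.not_eq_false'] at hc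
          constructor
          · unfold G
            simp only [hBt]
            constructor
            · rintro ⟨h1, h2⟩
              constructor
              · push_cast; omega
              · intro h3; push_cast at h3; exfalso; omega
            · rintro ⟨h1, h2⟩
              push_cast at h1 h2
              have h3 : (M : ℤ) - t ≤ tU + 1 := by
                by_contra h4
                have h5 : (M : ℤ) - 1 - t = tU + 1 := by omega
                rw [h5, uppE] at hc
                have h6 := h2 (by omega)
                simp only [decide_eq_true_eq] at hc
                omega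
              refine ⟨h3, fun h4 => ?_⟩
              have h5 : (M : ℤ) - 1 - t = tU := by omega
              rw [h5, uppO] at hc
              simp only [decide_eq_true_eq] at hc
              omega
          · intro _
            have hL := Link.fall (n := n) (k := k) (ω := ω) j ((M : ℤ) - 1 - t) hc
            have h0 : decide ((0 : ℤ) ≤ (M : ℤ) - 1 - t) = true := by
              simp only [decide_eq_true_eq]; omega
            rw [h0] at hL
            have hy : f M ((j + 1, t + 1), true) = ((j + 1, (M : ℤ) - 1 - t), true) := by
              simp only [f, if_true]
              push_cast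
              congr 2
              ring
            have hx : f M ((j, t), true) = ((j, (M : ℤ) - 1 - t + 1), true) := by
              simp only [f, if_true]
              congr 2
              ring
            rw [hx, hy]
            exact (Relation.EqvGen.rel _ _ hL).symm
        | link1 j t ht hc =>
          rw [cl_cu hn, Bool.not_eq_true'] at hc
          constructor
          · unfold G
            simp only [hBt]
            constructor
            · rintro ⟨h1, h2⟩
              constructor
              · push_cast; omega
              · intro h3; push_cast at h3; exfalso; omega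
            · rintro ⟨h1, h2⟩
              push_cast at h1 h2
              have h3 : (M : ℤ) - t ≤ tU + 1 := by
                by_contra h4
                have h5 : (M : ℤ) - 1 - t = tU + 1 := by omega
                rw [h5, uppE] at hc
                have h6 := h2 (by omega)
                simp only [decide_eq_false_iff_not] at hc
                omega
              refine ⟨h3, fun h4 => ?_⟩
              have h5 : (M : ℤ) - 1 - t = tU := by omega
              rw [h5, uppO] at hc
              simp only [decide_eq_false_iff_not] at hc
              omega
          · intro _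
            have hL := Link.rise (n := n) (k := k) (ω := ω) j ((M : ℤ) - 1 - t) hc
            have h0 : decide ((0 : ℤ) ≤ (M : ℤ) - 1 - t) = true := by
              simp only [decide_eq_true_eq]; omega
            rw [h0] at hL
            have hy : f M ((j, t + 1), true) = ((j, (M : ℤ) - 1 - t), true) := by
              simp only [f, if_true]
              push_cast
              congr 2
              ring
            have hx : f M ((j + 1, t), true) = ((j + 1, (M : ℤ) - 1 - t + 1), true) := by
              simp only [f, if_true]
              congr 2
              ring
            rw [hx, hy]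
            exact (Relation.EqvGen.rel _ _ hL).symm
      | glue s i hi =>
        constructor
        · unfold G
          simp only [sub_self]
          constructor
          · rintro _
            exact ⟨by omega, fun h => by exfalso; omega⟩
          · rintro _
            exact ⟨by omega, fun h => by exfalso; omega⟩
        · intro _
          have hL := Link.glue (n := n) (k := k) (ω := ω) (s * (2 * n : ℕ) + k + i) (by
            rintro s' ⟨h1, h2⟩
            push_cast at h1 h2
            have hi' : (i : ℤ) + k ≤ 2 * n := by exact_mod_cast hi
            have hn' : (0 : ℤ) < 2 * n := by omega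
            have h3 : s' < s + 1 := by
              by_contra h4
              push Not at h4
              have h5 : (s + 1) * (2 * n) ≤ s' * (2 * n) := mul_le_mul_of_nonneg_right h4 hn'.le
              nlinarith
            have h6 : s' * (2 * n) ≤ s * (2 * n) := mul_le_mul_of_nonneg_right (by omega) hn'.le
            have h7 : (0 : ℤ) ≤ i := by omega
            linarith)
          have hx : f M ((s * (2 * n : ℕ) + k + i, M), false) =
              ((s * (2 * n : ℕ) + k + i, 0), false) := by
            simp [f]
          have hy : f M ((s * (2 * n : ℕ) + k + i, M), true) =
              ((s * (2 * n : ℕ) + k + i, 0), true) := by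
            simp [f]
          rw [hx, hy]
          exact Relation.EqvGen.rel _ _ hL
  have hG : ∀ (a : ℤ) (β : Bool), G M B ((a, M), β) := by
    intro a β
    unfold G
    simp only [sub_self]
    exact ⟨by omega, fun h => by exfalso; omega⟩
  have hf : ∀ (a : ℤ) (β : Bool), f M ((a, M), β) = ((a, 0), β) := by
    intro a β
    simp [f]
  have := (key _ _ h).2 (hG a β)
  rwa [hf, hf] at this

end Pool.Agent.H160R2.LE
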