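import Pool.Agent.H160R2.LE.Defs

/-!
# X4: on the blocked event the leg event is the word event
-/

set_option autoImplicit false

namespace Pool.Agent.H160R2.LE
open Pool.Agent.H863R2.Cyl
open Pool.Agent.H988R2.Perc (Word PD)
open Pool.Agent.H160R2.ML
open H974 H906.Cyl

namespace TX4

theorem sector_eq (n k : ℕ) (w' w : Word) (hw' : w'.length = 2 * n) (hw : w.length = 2 * n)
    (s : ℤ) (c : ℕ) :
    sector n k s c = (((pt k k w' w s c).1, 0), (pt k k w' w s c).2) := by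
  unfold sector pt
  rw [hw', hw]
  split_ifs with h
  · rfl
  · have e : (2 * (k : ℤ) - c) = ((k : ℤ) + k - c) := by ring
    rw [e]

end TX4

open TX4 in
theorem t_X4 (h1 : S_X1) (h2 : S_X2) (h3 : S_X3) : S_X4 := by
  intro n M k hn hk hk2 ω hB σ τ
  have hlu : (wu n M ω τ).length = 2 * n := by
    unfold wu
    rw [(rows (2 * n - 1) (cu n M ω) M τ).2.1]
    omega
  have hld : (wd n M ω σ).length = 2 * n := by
    unfold wd
    rw [(rows (2 * n - 1) (cd n M ω) M σ).2.1]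
    omega
  have key : ∀ x y : ℤ × Bool, Relation.EqvGen (Link n k ω) ((x.1, 0), x.2) ((y.1, 0), y.2) ↔
      Cn k k (wu n M ω τ) (wd n M ω σ) x y := by
    rintro ⟨a, β⟩ ⟨b, γ⟩
    rw [← h1 n M k hn hk2 ω σ τ (a, β) (b, γ)]
    exact ⟨h2 n M k hn hk hk2 ω hB σ τ a b β γ, h3 n M k hn hk hk2 ω hB σ τ a b β γ⟩
  have e2 : 2 * k = k + k := by ring
  unfold LegEvent Pool.Agent.H160R2.ML.Good
  simp only [sector_eq n k _ _ hlu hld, key, e2]

end Pool.Agent.H160R2.LE
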