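import Pool.Agent.H160R2.LE.Defs
import Mathlib.Probability.Independence.InfinitePi

/-!
# LE task X6: the blocked event has probability close to one

Helper file (helper983).
-/

set_option autoImplicit false

namespace Pool.Agent.H160R2.LE
open MeasureTheory ProbabilityTheory

namespace TX6

noncomputable abbrev ber : Measure Bool :=
  ProbabilityTheory.bernoulliMeasure true false ⟨1/2, by norm_num, by norm_num⟩

instance : IsProbabilityMeasure coins := by
  unfold coins; infer_instance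

lemma ber_sing (b : Bool) : ber {b} = ENNReal.ofReal (1/2) := by
  have h : (ber).real {b} = 1/2 := by
    rw [bernoulliMeasure_real_apply _ (MeasurableSet.of_discrete)]
    cases b <;> simp
    norm_num
  rw [← h, ofReal_measureReal]

lemma meas_pattern (T : Finset (ℤ × ℤ)) (v : ℤ × ℤ → Bool) :
    coins {ω | ∀ c ∈ T, ω c = v c} = ENNReal.ofReal (1/2) ^ T.card := by
  have : {ω : ℤ × ℤ → Bool | ∀ c ∈ T, ω c = v c} = Set.pi (T : Set (ℤ × ℤ)) (fun c => {v c}) := by
    ext ω; simp [Set.mem_pi]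
  rw [this]
  unfold coins
  rw [Measure.infinitePi_pi _ (fun i _ => MeasurableSet.of_discrete)]
  rw [Finset.prod_congr rfl (fun c _ => ber_sing (v c))]
  simp

lemma meas_ext (S : Finset (ℤ × ℤ)) (E : Set (ℤ × ℤ → Bool))
    (hE : ∀ ω ω' : ℤ × ℤ → Bool, (∀ c ∈ S, ω c = ω' c) → ω ∈ E → ω' ∈ E) :
    ∃ E' : Set (S → Bool), E = (fun (ω : ℤ × ℤ → Bool) (i : S) => ω i) ⁻¹' E' := by
  classical
  refine ⟨{g | (fun c => if h : c ∈ S then g ⟨c, h⟩ else false) ∈ E}, ?_⟩
  ext ω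
  simp only [Set.mem_preimage, Set.mem_ofPred_eq]
  constructor
  · intro h
    refine hE _ _ (fun c hc => ?_) h
    simp [hc]
  · intro h
    refine hE _ _ (fun c hc => ?_) h
    simp [hc]

lemma indep (S T : Finset (ℤ × ℤ)) (hST : Disjoint S T) (E F : Set (ℤ × ℤ → Bool))
    (hE : ∀ ω ω' : ℤ × ℤ → Bool, (∀ c ∈ S, ω c = ω' c) → ω ∈ E → ω' ∈ E)
    (hF : ∀ ω ω' : ℤ × ℤ → Bool, (∀ c ∈ T, ω c = ω' c) → ω ∈ F → ω' ∈ F) :
    coins (E ∩ F) = coins E * coins F := by
  obtain ⟨E', rfl⟩ := meas_ext S E hE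
  obtain ⟨F', rfl⟩ := meas_ext T F hF
  have h1 : iIndepFun (fun (i : ℤ × ℤ) (ω : ℤ × ℤ → Bool) => ω i) coins := by
    unfold coins
    exact iIndepFun_infinitePi (X := fun _ (x : Bool) => x) (fun _ => measurable_id)
  have h2 := iIndepFun.indepFun_finset S T hST h1 (fun i => measurable_pi_apply i)
  exact h2.measure_inter_preimage_eq_mul _ _ (MeasurableSet.of_discrete) (MeasurableSet.of_discrete)

lemma key (T : ℕ → Finset (ℤ × ℤ)) (hd : ∀ i j, i ≠ j → Disjoint (T i) (T j)) (N : ℕ)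
    (hN : ∀ i, (T i).card = N) (v : ℤ × ℤ → Bool) (m : ℕ) :
    coins.real {ω | ∀ i < m, ¬ ∀ c ∈ T i, ω c = v c} = (1 - (1/2 : ℝ) ^ N) ^ m := by
  classical
  induction m with
  | zero => simp
  | succ m ih =>
    have hset : {ω : ℤ × ℤ → Bool | ∀ i < m + 1, ¬ ∀ c ∈ T i, ω c = v c}
        = {ω | ∀ i < m, ¬ ∀ c ∈ T i, ω c = v c} ∩ {ω | ¬ ∀ c ∈ T m, ω c = v c} := by
      ext ω
      simp only [Set.mem_ofPred_eq, Set.mem_inter_iff]
      constructor
      · intro h
        exact ⟨fun i hi => h i (by omega), h m (by omega)⟩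
      · rintro ⟨h1, h2⟩ i hi
        rcases Nat.lt_succ_iff_lt_or_eq.mp hi with h | h
        · exact h1 i h
        · subst h; exact h2
    have hi := indep ((Finset.range m).biUnion T) (T m)
      (by
        rw [Finset.disjoint_biUnion_left]
        intro i hi
        exact hd i m (by have := Finset.mem_range.mp hi; omega))
      {ω | ∀ i < m, ¬ ∀ c ∈ T i, ω c = v c} {ω | ¬ ∀ c ∈ T m, ω c = v c}
      (by
        intro ω ω' hh h i hi hc
        refine h i hi (fun c hcT => ?_)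
        rw [hh c (Finset.mem_biUnion.mpr ⟨i, Finset.mem_range.mpr hi, hcT⟩)]
        exact hc c hcT)
      (by
        intro ω ω' hh h hc
        refine h (fun c hcT => ?_)
        rw [hh c hcT]
        exact hc c hcT)
    rw [hset, measureReal_def, hi, ENNReal.toReal_mul, ← measureReal_def, ih, ← measureReal_def, pow_succ]
    congr 1
    have hm : MeasurableSet {ω : ℤ × ℤ → Bool | ∀ c ∈ T m, ω c = v c} := by
      have : {ω : ℤ × ℤ → Bool | ∀ c ∈ T m, ω c = v c}
          = ⋂ c ∈ T m, (fun ω : ℤ × ℤ → Bool => ω c) ⁻¹' {v c} := by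
        ext ω; simp
      rw [this]
      exact Finset.measurableSet_biInter _ (fun c _ => measurable_pi_apply c MeasurableSet.of_discrete)
    have hcompl : {ω : ℤ × ℤ → Bool | ¬ ∀ c ∈ T m, ω c = v c}
        = {ω : ℤ × ℤ → Bool | ∀ c ∈ T m, ω c = v c}ᶜ := rfl
    rw [hcompl, probReal_compl_eq_one_sub hm]
    congr 1
    rw [measureReal_def, meas_pattern, hN]
    rw [ENNReal.toReal_pow, ENNReal.toReal_ofReal (by norm_num)]

/-- the rectangle of two rows -/
noncomputable def TT (n : ℕ) (r s : ℤ) : Finset (ℤ × ℤ) := Finset.Ico (0 : ℤ) (2 * n) ×ˢ {r, s}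

lemma mem_TT (n : ℕ) (r s a b : ℤ) :
    (a, b) ∈ TT n r s ↔ (0 ≤ a ∧ a < 2 * n) ∧ (b = r ∨ b = s) := by
  simp only [TT, Finset.mem_product, Finset.mem_Ico, Finset.mem_insert, Finset.mem_singleton]

lemma card_TT (n : ℕ) (r s : ℤ) (h : r ≠ s) : (TT n r s).card = 4 * n := by
  unfold TT
  rw [Finset.card_product, Finset.card_pair h]
  simp
  omega

lemma half (A : ℕ → Finset (ℤ × ℤ)) (hd : ∀ i j, i ≠ j → Disjoint (A i) (A j)) (N : ℕ)
    (hN : ∀ i, (A i).card = N) (v : ℤ × ℤ → Bool) (ε : ℝ) (hε : 0 < ε) :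
    ∃ m : ℕ, ∀ m' ≥ m, coins.real {ω | ∀ i < m', ¬ ∀ c ∈ A i, ω c = v c} ≤ ε := by
  have h0 : (0:ℝ) < (1/2 : ℝ) ^ N := by positivity
  have h1 : (1/2 : ℝ) ^ N ≤ 1 := pow_le_one₀ (by norm_num) (by norm_num)
  obtain ⟨m, hm⟩ := exists_pow_lt_of_lt_one hε (show 1 - (1/2 : ℝ) ^ N < 1 by linarith)
  refine ⟨m, fun m' hm' => ?_⟩
  rw [key A hd N hN v m']
  exact (pow_le_pow_of_le_one (by linarith) (by linarith) hm').trans hm.le

end TX6

open TX6 in
theorem t_X6 : S_X6 := by
  intro n hn ε hε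
  classical
  -- above
  obtain ⟨m1, h1⟩ := half (fun i => TT n (2 * i) (2 * i + 1))
    (by
      intro i j hij
      rw [Finset.disjoint_left]
      rintro ⟨a, b⟩ h1 h2
      simp only [TT, Finset.mem_product, Finset.mem_insert, Finset.mem_singleton] at h1 h2
      omega)
    (4 * n) (fun i => card_TT n _ _ (by omega))
    (fun c => if c.2 % 2 = 0 then decide ((c.1 + c.2) % 2 = 1) else decide ((c.1 + c.2) % 2 = 0))
    (ε / 2) (by linarith)
  obtain ⟨m2, h2⟩ := half (fun i => TT n (-1 - 2 * i) (-2 - 2 * i))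
    (by
      intro i j hij
      rw [Finset.disjoint_left]
      rintro ⟨a, b⟩ h1 h2
      simp only [TT, Finset.mem_product, Finset.mem_insert, Finset.mem_singleton] at h1 h2
      omega)
    (4 * n) (fun i => card_TT n _ _ (by omega))
    (fun c => if c.2 % 2 = 0 then decide ((c.1 + c.2) % 2 = 0) else decide ((c.1 + c.2) % 2 = 1))
    (ε / 2) (by linarith)
  set m := max m1 m2 with hmdef
  have h1' := h1 m (le_max_left _ _)
  have h2' := h2 m (le_max_right _ _)
  refine ⟨2 * m, ?_⟩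
  refine le_trans (measureReal_mono (s₂ := {ω | ∀ i < m, ¬ ∀ c ∈ TT n (2 * i) (2 * i + 1), ω c =
      (if c.2 % 2 = 0 then decide ((c.1 + c.2) % 2 = 1) else decide ((c.1 + c.2) % 2 = 0))} ∪
      {ω | ∀ i < m, ¬ ∀ c ∈ TT n (-1 - 2 * i) (-2 - 2 * i), ω c =
      (if c.2 % 2 = 0 then decide ((c.1 + c.2) % 2 = 0) else decide ((c.1 + c.2) % 2 = 1))})
      ?_ (measure_ne_top _ _)) ?_
  · intro ω hω
    simp only [Set.mem_union, Set.mem_ofPred_eq]
    by_contra hcon
    push Not at hcon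
    obtain ⟨⟨i, hi, hA⟩, ⟨i', hi', hB⟩⟩ := hcon
    apply hω
    refine ⟨⟨2 * i, by omega, ?_, ?_⟩, ⟨2 * i', by omega, ?_, ?_⟩⟩
    · intro j hj0 hj1
      have := hA (j, 2 * (i : ℤ)) ((mem_TT _ _ _ _ _).mpr ⟨⟨hj0, hj1⟩, by simp⟩)
      simp only [show (2 * (i : ℤ)) % 2 = 0 by omega, if_true] at this
      push_cast
      exact this
    · intro j hj0 hj1
      have := hA (j, 2 * (i : ℤ) + 1) ((mem_TT _ _ _ _ _).mpr ⟨⟨hj0, hj1⟩, by simp⟩)
      rw [if_neg (by dsimp only; omega)] at this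
      push_cast
      rw [this]
      simp only [decide_eq_decide]
      omega
    · intro j hj0 hj1
      have := hB (j, -1 - 2 * (i' : ℤ)) ((mem_TT _ _ _ _ _).mpr ⟨⟨hj0, hj1⟩, by simp⟩)
      rw [if_neg (by dsimp only; omega)] at this
      push_cast
      exact this
    · intro j hj0 hj1
      have := hB (j, -2 - 2 * (i' : ℤ)) ((mem_TT _ _ _ _ _).mpr ⟨⟨hj0, hj1⟩, by simp⟩)
      rw [if_pos (by dsimp only; omega)] at this
      push_cast
      exact this
  · refine (measureReal_union_le _ _).trans ?_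
    linarith

end Pool.Agent.H160R2.LE
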