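import Pool.Agent.H160R2.LE.Defs

/-!
# Task X7: the probability of the leg event
-/

set_option autoImplicit false

namespace Pool.Agent.H160R2.LE
open Pool.Agent.H863R2.Cyl
open Pool.Agent.H988R2.Perc (Word PD)
open Pool.Agent.H160R2.ML
open H974 H906.Cyl
open MeasureTheory

theorem t_X7 : S_X4 → S_X5 → S_X6 → S_X7 := by
  intro h4 h5 h6 n k hn hk hkn μ hμ0 hμ1 hst
  have hprob : IsProbabilityMeasure coins := by
    unfold coins
    infer_instance
  refine eq_of_forall_dist_le ?_
  intro ε hε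
  obtain ⟨M, hM⟩ := h6 n hn ε hε
  have e5 := h5 n M k hn μ hst
  rw [← e5, Real.dist_eq]
  set P := coins.real {ω | LegEvent n k ω} with hP
  have h1 : P = ∑ σ, ∑ τ, μ σ * μ τ * P := by
    have : ∑ σ, ∑ τ, μ σ * μ τ * P = (∑ σ, μ σ) * (∑ τ, μ τ) * P := by
      rw [Finset.sum_mul_sum, Finset.sum_mul]
      refine Finset.sum_congr rfl fun σ _ => ?_
      rw [Finset.sum_mul]
    rw [this, hμ1]
    ring
  have h2 : ∀ σ τ : Wd (2 * n - 1 + 1),
      |P - coins.real {ω | Good k k (wu n M ω τ) (wd n M ω σ)}| ≤ ε := by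
    intro σ τ
    have s1 : {ω | LegEvent n k ω} ⊆
        {ω | Good k k (wu n M ω τ) (wd n M ω σ)} ∪ {ω | ¬ Blk n M ω} := by
      intro ω hω
      by_cases hb : Blk n M ω
      · left
        exact (h4 n M k hn hk hkn ω hb σ τ).1 hω
      · right
        exact hb
    have s2 : {ω | Good k k (wu n M ω τ) (wd n M ω σ)} ⊆
        {ω | LegEvent n k ω} ∪ {ω | ¬ Blk n M ω} := by
      intro ω hω
      by_cases hb : Blk n M ω
      · left
        exact (h4 n M k hn hk hkn ω hb σ τ).2 hω
      · right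
        exact hb
    have t1 := (measureReal_mono (μ := coins) s1).trans (measureReal_union_le _ _)
    have t2 := (measureReal_mono (μ := coins) s2).trans (measureReal_union_le _ _)
    rw [abs_le]
    constructor <;> linarith
  calc |P - ∑ σ, ∑ τ, μ σ * μ τ * coins.real {ω | Good k k (wu n M ω τ) (wd n M ω σ)}|
      = |∑ σ, ∑ τ, μ σ * μ τ *
          (P - coins.real {ω | Good k k (wu n M ω τ) (wd n M ω σ)})| := by
        congr 1
        conv_lhs => rw [h1]
        rw [← Finset.sum_sub_distrib]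
        refine Finset.sum_congr rfl fun σ _ => ?_
        rw [← Finset.sum_sub_distrib]
        refine Finset.sum_congr rfl fun τ _ => ?_
        ring
    _ ≤ ∑ σ, ∑ τ, μ σ * μ τ * ε := by
        refine (Finset.abs_sum_le_sum_abs _ _).trans ?_
        refine Finset.sum_le_sum fun σ _ => ?_
        refine (Finset.abs_sum_le_sum_abs _ _).trans ?_
        refine Finset.sum_le_sum fun τ _ => ?_
        rw [abs_mul, abs_of_nonneg (mul_nonneg (hμ0 σ) (hμ0 τ))]
        exact mul_le_mul_of_nonneg_left (h2 σ τ) (mul_nonneg (hμ0 σ) (hμ0 τ))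
    _ = (∑ σ, μ σ) * (∑ τ, μ τ) * ε := by
        rw [Finset.sum_mul_sum, Finset.sum_mul]
        refine Finset.sum_congr rfl fun σ _ => ?_
        rw [Finset.sum_mul]
    _ = ε := by rw [hμ1]; ring

end Pool.Agent.H160R2.LE
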