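import Pool.Agent.H160R2.LE.Defs
import Pool.Agent.H863R2.Cyl.Markov

/-! Task X8 (helper196): exact value and exponents of the leg event. -/

set_option autoImplicit false

namespace Pool.Agent.H160R2.LE
open Pool.Agent.H863R2.Cyl
open Pool.Agent.H988R2.Perc (Word PD)
open Pool.Agent.H160R2.ML
open H974 H906.Cyl
open MeasureTheory

theorem t_X8 : Pool.Agent.H160R2.ML.S_PB → Pool.Agent.H160R2.ML.S_FA →
    Pool.Agent.H160R2.ML.S_PH → S_X7 → S_X8 := by
  intro hPB hFA hPH hX7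
  have h1 : ∀ n k : ℕ, 1 ≤ n → 1 ≤ k → k ≤ 2 * n →
      coins.real {ω | LegEvent n k ω} * RR (2 * n) 0 (Real.pi / 3) =
        RR (2 * n - k) (2 * k) 0 := by
    intro n k hn hk hkn
    obtain ⟨μ, m1, m2, m3, -, -⟩ := markov_exists (2 * n - 1)
    rw [hX7 n k hn hk hkn μ m1 m2 m3]
    exact hPB n k hn hk hkn μ m1 m2 m3
  refine ⟨h1, ?_⟩
  intro k hk
  obtain ⟨c, C, hc, hC, h⟩ := hFA k hk
  refine ⟨c, C, hc, hC, ?_⟩
  intro n hn
  have hR : 0 < RR (2 * n) 0 (Real.pi / 3) :=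
    (hPH (2 * n) 0 (Real.pi / 3) (by positivity) (by linarith [Real.pi_pos])).1
  obtain ⟨h2, h3⟩ := h n hn
  rw [← h1 n k (by omega) hk (by omega)] at h2 h3
  constructor
  · exact le_of_mul_le_mul_right h2 hR
  · exact le_of_mul_le_mul_right h3 hR

end Pool.Agent.H160R2.LE
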