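import Pool.Agent.H160R2.ML.All
import Pool.Agent.H160R2.LE.T_X1
import Pool.Agent.H160R2.LE.T_X2
import Pool.Agent.H160R2.LE.T_X3
import Pool.Agent.H160R2.LE.T_X4
import Pool.Agent.H160R2.LE.T_X5
import Pool.Agent.H160R2.LE.T_X6
import Pool.Agent.H160R2.LE.T_X7
import Pool.Agent.H160R2.LE.T_X8

/-!
# The leg event on the infinite cylinder: assembly
-/

set_option autoImplicit false

namespace Pool.Agent.H160R2.LE
open Pool.Agent.H160R2.ML

theorem a_X7 : S_X7 := t_X7 (t_X4 t_X1 t_X2 t_X3) t_X5 t_X6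
theorem a_X8 : S_X8 := t_X8 a_PB a_FA a_PH a_X7

end Pool.Agent.H160R2.LE
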