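import Pool.Agent.H160R2.ML.Stm
import Mathlib.Probability.ProductMeasure

/-!
# The leg event on the infinite cylinder
-/

set_option autoImplicit false

namespace Pool.Agent.H160R2.LE
open Pool.Agent.H863R2.Cyl
open Pool.Agent.H988R2.Perc (Word PD)
open Pool.Agent.H160R2.ML
open H974 H906.Cyl
open MeasureTheory

/-- one fair coin for every unit square of `ℤ × ℤ` -/
noncomputable def coins : Measure (ℤ × ℤ → Bool) :=
  Measure.infinitePi (fun _ => ProbabilityTheory.bernoulliMeasure true false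
    ⟨1/2, by norm_num, by norm_num⟩)

/-- The links of the cut strip: the square `[j,j+1] × [t,t+1]` has the diagonal from its lower left
corner (`false`) or from its lower right corner (`true`), periodically with period `2 n`; the
points of the line `t = 0` are doubled (`false` = lower side, `true` = upper side) and the two copies
of `(j, 0)` are linked unless `j` is strictly inside one of the slits `[2 n s, 2 n s + k]`. -/
inductive Link (n k : ℕ) (ω : ℤ × ℤ → Bool) : (ℤ × ℤ) × Bool → (ℤ × ℤ) × Bool → Prop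
  | rise (j t : ℤ) : ω (j % (2 * n : ℕ), t) = false →
      Link n k ω ((j, t), decide (0 ≤ t)) ((j + 1, t + 1), decide (0 ≤ t))
  | fall (j t : ℤ) : ω (j % (2 * n : ℕ), t) = true →
      Link n k ω ((j + 1, t), decide (0 ≤ t)) ((j, t + 1), decide (0 ≤ t))
  | glue (j : ℤ) : (∀ s : ℤ, ¬ (s * (2 * n : ℕ) < j ∧ j < s * (2 * n : ℕ) + k)) →
      Link n k ω ((j, 0), false) ((j, 0), true)

/-- the `c`-th sector (`c < 2 k`) around the slit number `s` -/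
def sector (n k : ℕ) (s : ℤ) (c : ℕ) : (ℤ × ℤ) × Bool :=
  if c ≤ k then ((s * (2 * n : ℕ) + c, 0), false) else ((s * (2 * n : ℕ) + (2 * k - c), 0), true)

/-- the `2 k` sectors of a slit are pairwise not connected, and each of them is connected to a
sector of another slit -/
def LegEvent (n k : ℕ) (ω : ℤ × ℤ → Bool) : Prop :=
  (∀ c d : ℕ, c < 2 * k → d < 2 * k → c ≠ d →
    ¬ Relation.EqvGen (Link n k ω) (sector n k 0 c) (sector n k 0 d)) ∧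
  (∀ c : ℕ, c < 2 * k → ∃ s : ℤ, s ≠ 0 ∧ ∃ d : ℕ, d < 2 * k ∧
    Relation.EqvGen (Link n k ω) (sector n k 0 c) (sector n k s d))

/-- the bits of the rows `-M, …, -1` -/
def cd (n M : ℕ) (ω : ℤ × ℤ → Bool) : ℕ → Fin (2 * n - 1 + 1) → Bool :=
  fun t j => ω ((j.val : ℤ), (t : ℤ) - M)

/-- the bits of the rows `M - 1, …, 0` (read downwards) -/
def cu (n M : ℕ) (ω : ℤ × ℤ → Bool) : ℕ → Fin (2 * n - 1 + 1) → Bool :=
  fun t j => !(ω ((j.val : ℤ), (M : ℤ) - 1 - t))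

/-- the words of the two halves -/
noncomputable def wd (n M : ℕ) (ω : ℤ × ℤ → Bool) (σ : Wd (2 * n - 1 + 1)) : Word :=
  (rows (2 * n - 1) (cd n M ω) M σ).1
noncomputable def wu (n M : ℕ) (ω : ℤ × ℤ → Bool) (τ : Wd (2 * n - 1 + 1)) : Word :=
  (rows (2 * n - 1) (cu n M ω) M τ).1

/-- the links of the finite cut strip `|t| ≤ M` with boundary words: `((j, t), β)`, `t ≤ M` the
distance to the end, `t = M` the level of the slits -/
inductive BgB (n M k : ℕ) (ω : ℤ × ℤ → Bool) (τ σ : Word) :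
    (ℤ × ℕ) × Bool → (ℤ × ℕ) × Bool → Prop
  | low (x y : ℤ × ℕ) : Lk (2 * n - 1) (cd n M ω) M σ x y → BgB n M k ω τ σ (x, false) (y, false)
  | upp (x y : ℤ × ℕ) : Lk (2 * n - 1) (cu n M ω) M τ x y → BgB n M k ω τ σ (x, true) (y, true)
  | glue (s : ℤ) (i : ℕ) : i + k ≤ 2 * n →
      BgB n M k ω τ σ ((s * (2 * n : ℕ) + k + i, M), false) ((s * (2 * n : ℕ) + k + i, M), true)

/-- the row `t` has only diagonals between even points, the next row (away from the slit)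
only diagonals between odd points: for the rows `t ≥ 0` above -/
def BlU (n : ℕ) (ω : ℤ × ℤ → Bool) (t : ℕ) : Prop :=
  (∀ j : ℤ, 0 ≤ j → j < 2 * n → ω (j, (t : ℤ)) = decide ((j + t) % 2 = 1)) ∧
  (∀ j : ℤ, 0 ≤ j → j < 2 * n → ω (j, (t : ℤ) + 1) = decide ((j + t + 1) % 2 = 0))

/-- the same below: rows `-1 - t` and `-2 - t` -/
def BlD (n : ℕ) (ω : ℤ × ℤ → Bool) (t : ℕ) : Prop :=
  (∀ j : ℤ, 0 ≤ j → j < 2 * n → ω (j, -1 - (t : ℤ)) = decide ((j + (-1 - t)) % 2 = 1)) ∧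
  (∀ j : ℤ, 0 ≤ j → j < 2 * n → ω (j, -2 - (t : ℤ)) = decide ((j + (-2 - t)) % 2 = 0))

/-- both sides are blocked before height `M` -/
def Blk (n M : ℕ) (ω : ℤ × ℤ → Bool) : Prop :=
  (∃ t : ℕ, t + 2 ≤ M ∧ BlU n ω t) ∧ (∃ t : ℕ, t + 2 ≤ M ∧ BlD n ω t)

/-! ### steps -/

/-- bulk versus words (like `S_C1`) -/
def S_X1 : Prop := ∀ (n M k : ℕ), 1 ≤ n → k ≤ 2 * n → ∀ (ω : ℤ × ℤ → Bool)
  (σ τ : Wd (2 * n - 1 + 1)) (x y : ℤ × Bool),
  Relation.EqvGen (BgB n M k ω τ.1 σ.1) (lev M x) (lev M y) ↔ Cn k k (wu n M ω τ) (wd n M ω σ) x y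

/-- blocked: the connections of the infinite strip are those of the finite strip -/
def S_X2 : Prop := ∀ (n M k : ℕ), 1 ≤ n → 1 ≤ k → k ≤ 2 * n → ∀ (ω : ℤ × ℤ → Bool), Blk n M ω →
  ∀ (σ τ : Wd (2 * n - 1 + 1)) (a b : ℤ) (β γ : Bool),
  Relation.EqvGen (Link n k ω) ((a, 0), β) ((b, 0), γ) →
    Relation.EqvGen (BgB n M k ω τ.1 σ.1) ((a, M), β) ((b, M), γ)

def S_X3 : Prop := ∀ (n M k : ℕ), 1 ≤ n → 1 ≤ k → k ≤ 2 * n → ∀ (ω : ℤ × ℤ → Bool), Blk n M ω →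
  ∀ (σ τ : Wd (2 * n - 1 + 1)) (a b : ℤ) (β γ : Bool),
  Relation.EqvGen (BgB n M k ω τ.1 σ.1) ((a, M), β) ((b, M), γ) →
    Relation.EqvGen (Link n k ω) ((a, 0), β) ((b, 0), γ)

/-- on the blocked event the leg event is the word event -/
def S_X4 : Prop := ∀ (n M k : ℕ), 1 ≤ n → 1 ≤ k → k ≤ 2 * n → ∀ (ω : ℤ × ℤ → Bool), Blk n M ω →
  ∀ (σ τ : Wd (2 * n - 1 + 1)), (LegEvent n k ω ↔ Good k k (wu n M ω τ) (wd n M ω σ))

open Classical in
/-- averaging over the rows -/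
def S_X5 : Prop := ∀ (n M k : ℕ), 1 ≤ n → ∀ μ : Wd (2 * n - 1 + 1) → ℝ,
  (∀ σ, ∑ c : Fin (2 * n - 1 + 1) → Bool, push (Tc (2 * n - 1) c) μ σ
      = 2 ^ (2 * n - 1 + 1) * μ σ) →
  ∑ σ, ∑ τ, μ σ * μ τ * coins.real {ω | Good k k (wu n M ω τ) (wd n M ω σ)}
    = ∑ σ, ∑ τ, (if Good k k τ.1 σ.1 then 1 else 0) * μ σ * μ τ

/-- the blocked event -/
def S_X6 : Prop := ∀ n : ℕ, 1 ≤ n → ∀ ε : ℝ, 0 < ε → ∃ M : ℕ, coins.real {ω | ¬ Blk n M ω} ≤ ε

open Classical in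
/-- the probability of the leg event -/
def S_X7 : Prop := ∀ n k : ℕ, 1 ≤ n → 1 ≤ k → k ≤ 2 * n → ∀ μ : Wd (2 * n - 1 + 1) → ℝ,
  (∀ σ, 0 ≤ μ σ) → ∑ σ, μ σ = 1 →
  (∀ σ, ∑ c : Fin (2 * n - 1 + 1) → Bool, push (Tc (2 * n - 1) c) μ σ
      = 2 ^ (2 * n - 1 + 1) * μ σ) →
  coins.real {ω | LegEvent n k ω} = ∑ σ, ∑ τ, (if Good k k τ.1 σ.1 then 1 else 0) * μ σ * μ τ

/-- final statement: exact value and exponents -/
def S_X8 : Prop :=
  (∀ n k : ℕ, 1 ≤ n → 1 ≤ k → k ≤ 2 * n →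
    coins.real {ω | LegEvent n k ω} * RR (2 * n) 0 (Real.pi / 3) = RR (2 * n - k) (2 * k) 0) ∧
  (∀ k : ℕ, 1 ≤ k → ∃ c C : ℝ, 0 < c ∧ 0 < C ∧ ∀ n : ℕ, k ≤ n →
    c * (n : ℝ) ^ (-((4 * (k : ℝ) ^ 2 - 1) / 12)) ≤ coins.real {ω | LegEvent n k ω} ∧
    coins.real {ω | LegEvent n k ω} ≤ C * (n : ℝ) ^ (-((4 * (k : ℝ) ^ 2 - 1) / 12)))

end Pool.Agent.H160R2.LE
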