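import Pool.Agent.H160R2.LE.All

/-!
# Explicit form of the leg theorem
-/

set_option autoImplicit false

namespace Pool.Agent.H160R2.LE
open Pool.Agent.H160R2.ML
open MeasureTheory

/-- `RR` is the norm of the explicit determinant -/
theorem RR_eq (N l : ℕ) (θ : ℝ) : RR N l θ = ‖(Matrix.of fun i j : Fin N =>
    (if i = j then 1 else 0) + Complex.exp (θ * Complex.I) *
      ((l + i.val + j.val).choose j.val : ℂ)).det‖ := rfl

theorem RR_zero (N l : ℕ) : RR N l 0 = ‖(Matrix.of fun i j : Fin N =>
    (if i = j then 1 else 0) + ((l + i.val + j.val).choose j.val : ℂ)).det‖ := by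
  rw [RR_eq]
  simp

end Pool.Agent.H160R2.LE
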